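import Pool.Agent.ZP3.Stmts

/-!
# Squad ZP3, row ROU: roots of unity different from 1 are not too close to 1
-/

set_option autoImplicit false

namespace Pool.Agent.ZP3.H48

open Pool.Agent.ZPT Pool.Agent.ZP3

theorem ro_norm {K : Type} [NormedField K] {x : K} (hx : Ro x) : ‖x‖ = 1 := by
  obtain ⟨M, hM, h⟩ := hx
  have h1 : ‖x‖ ^ M = 1 := by rw [← norm_pow, h, norm_one]
  exact (pow_eq_one_iff_of_nonneg (norm_nonneg _) (by omega)).1 h1

theorem rou (spl : SPLStmt) (wtm : WTMStmt) (wwn : WWNStmt) : ROUStmt := by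
  intro p hp h3 K _ _ _ hK x hx hx1
  by_contra hcon
  push Not at hcon
  obtain ⟨y, w, hxy, hy, hw⟩ := spl p hp K x hx
  have hth : th p < 1 := by
    unfold th
    have hp1 : (1 : ℝ) < p := by exact_mod_cast hp.one_lt
    refine Real.rpow_lt_one_of_one_lt_of_neg hp1 ?_
    have : (0 : ℝ) < (p : ℝ) - 1 := by linarith
    exact div_neg_of_neg_of_pos (by norm_num) this
  have hy1 : ‖y‖ = 1 := by
    obtain ⟨M, hM, -, h⟩ := hy
    exact ro_norm ⟨M, hM, h⟩
  rcases hw with hw | ⟨k, hk, hw⟩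
  · rw [hw, mul_one] at hxy
    rw [hxy] at hcon hx1
    exact hx1 (wtm p hp K hK y hy (hcon.trans hth))
  · obtain ⟨-, h2, h4, -⟩ := wwn p hp h3 K hK k w hk hw
    have hy2 : ‖y - 1‖ < 1 := by
      have e : y - 1 = (x - 1) + -(y * (w - 1)) := by rw [hxy]; ring
      rw [e]
      refine (IsUltrametricDist.norm_add_le_max _ _).trans_lt (max_lt (hcon.trans hth) ?_)
      rw [norm_neg, norm_mul, hy1, one_mul]
      exact h4
    have hy3 : y = 1 := wtm p hp K hK y hy hy2
    rw [hxy, hy3, one_mul] at hcon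
    exact absurd hcon (not_lt.2 h2)

end Pool.Agent.ZP3.H48
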