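import Pool.Agent.ZP3.Stmts
import Pool.Agent.Helper49_ZPT.RU

/-!
# Squad ZP3, row ZKL: the key expansion
-/

set_option autoImplicit false

namespace Pool.Agent.ZP3.H48

open Pool.Agent.ZPT Pool.Agent.ZP3
open Pool.Agent.ZPT.H49 (nat_le p_norm l_norm pow_sub_one_le)

section

variable {K : Type} [NormedField K] [CharZero K] [IsUltrametricDist K]

theorem add_le {a b : K} {r : ℝ} (ha : ‖a‖ ≤ r) (hb : ‖b‖ ≤ r) : ‖a + b‖ ≤ r :=
  (IsUltrametricDist.norm_add_le_max _ _).trans (max_le ha hb)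

theorem add_lt {a b : K} {r : ℝ} (ha : ‖a‖ < r) (hb : ‖b‖ < r) : ‖a + b‖ < r :=
  (IsUltrametricDist.norm_add_le_max _ _).trans_lt (max_lt ha hb)

/-- second order expansion of a power -/
theorem pow_sub_quad {p : ℕ} (hp : p.Prime) (hK : Ext p K) {y : K} (hy : ‖y‖ ≤ 1) (r : ℕ) :
    ‖(1 + y) ^ r - (1 + (r : K) * y + ((r.choose 2 : ℕ) : K) * y ^ 2)‖ ≤ ‖y‖ ^ 3 := by
  induction r with
  | zero => simp
  | succ r ih =>
    have e : (1 + y) ^ (r + 1) - (1 + ((r + 1 : ℕ) : K) * y +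
        (((r + 1).choose 2 : ℕ) : K) * y ^ 2) =
        (1 + y) * ((1 + y) ^ r - (1 + (r : K) * y + ((r.choose 2 : ℕ) : K) * y ^ 2)) +
        ((r.choose 2 : ℕ) : K) * y ^ 3 := by
      rw [Nat.choose_succ_succ' r 1, Nat.choose_one_right]
      push_cast
      ring
    rw [e]
    refine add_le ?_ ?_
    · rw [norm_mul]
      have h1 : ‖1 + y‖ ≤ 1 := add_le (by rw [norm_one]) hy
      exact (mul_le_of_le_one_left (norm_nonneg _) h1).trans ih
    · rw [norm_mul, norm_pow]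
      exact mul_le_of_le_one_left (by positivity) (nat_le hp hK _)

theorem two_norm {p : ℕ} (hp : p.Prime) (h5 : 5 ≤ p) (hK : Ext p K) : ‖(2 : K)‖ = 1 := by
  have h := l_norm (K := K) hp Nat.prime_two (by omega) hK
  exact_mod_cast h

theorem three_norm {p : ℕ} (hp : p.Prime) (h5 : 5 ≤ p) (hK : Ext p K) : ‖(3 : K)‖ = 1 := by
  have h := l_norm (K := K) hp Nat.prime_three (by omega) hK
  exact_mod_cast h

/-- the main expansion for a primitive root of order p -/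
theorem base_exp {p : ℕ} (hp : p.Prime) (h5 : 5 ≤ p) (hK : Ext p K) {y : K} (hy0 : y ≠ 0)
    (hy1 : ‖y‖ < 1) (hy3 : (p : ℝ)⁻¹ < ‖y‖ ^ 3) (hw : (1 + y) ^ p = 1) :
    ‖y ^ (p - 1) / (-(p : K)) - (1 - y / 2 + y ^ 2 / 3)‖ ≤ ‖y‖ ^ 3 := by
  have hpK : (p : K) ≠ 0 := Nat.cast_ne_zero.2 hp.ne_zero
  have h2 := two_norm (K := K) hp h5 hK
  have h3 := three_norm (K := K) hp h5 hK
  have hy0' : 0 < ‖y‖ := norm_pos_iff.2 hy0
  have hpn : ‖(p : K)‖ = (p : ℝ)⁻¹ := by rw [p_norm hp hK, one_div]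
  have hpi : 0 < (p : ℝ)⁻¹ := inv_pos.2 (by exact_mod_cast hp.pos)
  obtain ⟨S, hS⟩ : ∃ S : K, S = ∑ i ∈ Finset.Ico 4 p, y ^ i * ((p.choose i : ℕ) : K) := ⟨_, rfl⟩
  have hS1 : ‖S‖ ≤ (p : ℝ)⁻¹ * ‖y‖ ^ 4 := by
    rw [hS]
    refine IsUltrametricDist.norm_sum_le_of_forall_le_of_nonneg (by positivity) ?_
    intro i hi
    rw [Finset.mem_Ico] at hi
    obtain ⟨m, hm⟩ := hp.dvd_choose_self (show i ≠ 0 by omega) hi.2
    rw [hm]
    push_cast
    rw [norm_mul, norm_mul, hpn, norm_pow]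
    have e1 : ‖y‖ ^ i ≤ ‖y‖ ^ 4 := pow_le_pow_of_le_one (norm_nonneg _) hy1.le hi.1
    have e2 : ‖(m : K)‖ ≤ 1 := nat_le hp hK m
    calc ‖y‖ ^ i * ((p : ℝ)⁻¹ * ‖(m : K)‖) ≤ ‖y‖ ^ 4 * ((p : ℝ)⁻¹ * 1) := by
          apply mul_le_mul e1 (mul_le_mul_of_nonneg_left e2 hpi.le) (by positivity) (by positivity)
      _ = (p : ℝ)⁻¹ * ‖y‖ ^ 4 := by ring
  have c2 : (((p.choose 2 : ℕ)) : K) = (p : K) * ((p : K) - 1) / 2 := Nat.cast_choose_two K p
  have c3 : (((p.choose 3 : ℕ)) : K) * 3 = ((p.choose 2 : ℕ) : K) * ((p : K) - 2) := by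
    have h := Nat.choose_succ_right_eq p 2
    have h' : (((p.choose (2 + 1) * (2 + 1) : ℕ)) : K) = ((p.choose 2 * (p - 2) : ℕ) : K) := by
      rw [h]
    push_cast [Nat.cast_sub (show 2 ≤ p by omega)] at h'
    rw [← h']
  have hsum : 1 + (p : K) * y + ((p.choose 2 : ℕ) : K) * y ^ 2 + ((p.choose 3 : ℕ) : K) * y ^ 3 +
      S + y ^ p = 1 := by
    have h := add_pow y 1 p
    rw [add_comm y 1, hw, Finset.sum_range_succ,
      ← Finset.sum_range_add_sum_Ico _ (show 4 ≤ p by omega)] at h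
    simp only [one_pow, mul_one, Nat.choose_self, Nat.cast_one] at h
    rw [← hS] at h
    rw [Finset.sum_range_succ, Finset.sum_range_succ, Finset.sum_range_succ,
      Finset.sum_range_succ, Finset.sum_range_zero] at h
    simp only [pow_zero, pow_one, Nat.choose_zero_right, Nat.cast_one, Nat.choose_one_right] at h
    linear_combination -h
  have hyp : y ^ p = y * y ^ (p - 1) := by
    rw [← pow_succ']
    congr 1
    omega
  have c3' : (((p.choose 3 : ℕ)) : K) = (p : K) * ((p : K) - 1) * ((p : K) - 2) / 6 := by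
    have h30 : (3 : K) ≠ 0 := by norm_num
    field_simp
    linear_combination 2 * c3 + (2 * ((p : K) - 2)) * c2
  have h30 : (3 : K) ≠ 0 := by norm_num
  have h20 : (2 : K) ≠ 0 := by norm_num
  have key : y ^ (p - 1) / (-(p : K)) - (1 - y / 2 + y ^ 2 / 3) =
      ((p : K) * y / 2 + (p : K) * ((p : K) - 3) * y ^ 2 / (2 * 3)) + S / ((p : K) * y) := by
    rw [c2, c3', hyp] at hsum
    field_simp
    linear_combination (-6 : K) * hsum
  rw [key]
  refine add_le (add_le ?_ ?_) ?_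
  · rw [norm_div, norm_mul, h2, div_one, hpn]
    calc (p : ℝ)⁻¹ * ‖y‖ ≤ ‖y‖ ^ 3 * 1 := by
          apply mul_le_mul hy3.le hy1.le (norm_nonneg _) (by positivity)
      _ = ‖y‖ ^ 3 := mul_one _
  · rw [norm_div, norm_mul, norm_mul, norm_mul, h2, h3, mul_one, div_one, hpn, norm_pow]
    have e3 : ‖(p : K) - 3‖ ≤ 1 := by
      have : (p : K) - 3 = ((p - 3 : ℕ) : K) := by
        rw [Nat.cast_sub (show 3 ≤ p by omega)]; norm_num
      rw [this]
      exact nat_le hp hK _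
    calc (p : ℝ)⁻¹ * ‖(p : K) - 3‖ * ‖y‖ ^ 2 ≤ ‖y‖ ^ 3 * 1 * 1 := by
          apply mul_le_mul (mul_le_mul hy3.le e3 (norm_nonneg _) (by positivity)) ?_
            (by positivity) (by positivity)
          exact pow_le_one₀ (norm_nonneg _) hy1.le
      _ = ‖y‖ ^ 3 := by ring
  · rw [norm_div, norm_mul, hpn, div_le_iff₀ (by positivity)]
    refine hS1.trans (le_of_eq ?_)
    ring

/-- the expansion of the square root of the root of unity -/
theorem sqrt_exp {p : ℕ} (hp : p.Prime) (h5 : 5 ≤ p) (hK : Ext p K) {y : K}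
    (hy1 : ‖y‖ < 1) (hy3 : (p : ℝ)⁻¹ < ‖y‖ ^ 3) :
    ‖(1 + y) ^ ((p + 1) / 2) - (1 + y / 2 - y ^ 2 / 8)‖ ≤ ‖y‖ ^ 3 := by
  have h2 := two_norm (K := K) hp h5 hK
  have hpn : ‖(p : K)‖ = (p : ℝ)⁻¹ := by rw [p_norm hp hK, one_div]
  have hpi : 0 < (p : ℝ)⁻¹ := inv_pos.2 (by exact_mod_cast hp.pos)
  have h20 : (2 : K) ≠ 0 := by norm_num
  have hodd : p % 2 = 1 := hp.eq_two_or_odd.resolve_left (by omega)
  obtain ⟨s, hs⟩ : ∃ s : ℕ, s = (p + 1) / 2 := ⟨_, rfl⟩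
  have hs2 : 2 * s = p + 1 := by omega
  have hsK : 2 * (s : K) = (p : K) + 1 := by exact_mod_cast congrArg (Nat.cast : ℕ → K) hs2
  have hsK' : (s : K) = ((p : K) + 1) / 2 := by rw [← hsK]; field_simp
  rw [← hs]
  have h := pow_sub_quad (K := K) hp hK hy1.le s
  have e : (1 + y) ^ s - (1 + y / 2 - y ^ 2 / 8) =
      ((1 + y) ^ s - (1 + (s : K) * y + ((s.choose 2 : ℕ) : K) * y ^ 2)) +
      ((p : K) * y / 2 + (p : K) * (p : K) * y ^ 2 / (2 * 2 * 2)) := by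
    rw [Nat.cast_choose_two K s, hsK']
    field_simp
    ring
  rw [e]
  refine add_le h (add_le ?_ ?_)
  · rw [norm_div, norm_mul, h2, div_one, hpn]
    calc (p : ℝ)⁻¹ * ‖y‖ ≤ ‖y‖ ^ 3 * 1 := by
          apply mul_le_mul hy3.le hy1.le (norm_nonneg _) (by positivity)
      _ = ‖y‖ ^ 3 := mul_one _
  · rw [norm_div, norm_mul, norm_mul, norm_mul, norm_mul, h2, mul_one, mul_one, div_one, norm_pow]
    have e3 : ‖(p : K)‖ ≤ 1 := nat_le hp hK p
    calc ‖(p : K)‖ * ‖(p : K)‖ * ‖y‖ ^ 2 ≤ ‖y‖ ^ 3 * 1 * 1 := by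
          apply mul_le_mul (mul_le_mul (hpn.trans_lt hy3).le e3 (norm_nonneg _) (by positivity)) ?_
            (by positivity) (by positivity)
          exact pow_le_one₀ (norm_nonneg _) hy1.le
      _ = ‖y‖ ^ 3 := by ring

/-- a number close to a small number of norm `r` -/
theorem norm_of_near {a b : K} {r : ℝ} (hb : ‖b‖ = r) (h : ‖a - b‖ < r) : ‖a‖ = r := by
  have h1 : ‖a - b‖ < ‖b‖ := by rw [hb]; exact h
  have h2 := IsUltrametricDist.norm_add_eq_max_of_norm_ne_norm h1.ne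
  rw [sub_add_cancel, max_eq_right h1.le, hb] at h2
  exact h2

/-- the case `k = 1` -/
theorem base_case {p : ℕ} (hp : p.Prime) (h5 : 5 ≤ p) (hK : Ext p K) (thb : THBStmt)
    (wwn : WWNStmt) {w : K} (hw : IsPrimitiveRoot w p) :
    ∃ x : K, Ro x ∧ ‖(w - 1) ^ (p - 1) / (p : K) * x - 1‖ = th p ^ 2 := by
  obtain ⟨-, ht0, ht1, ht3, -⟩ := thb p hp h5
  obtain ⟨-, -, -, hy⟩ := wwn p hp (by omega) K hK 1 w le_rfl (by rw [pow_one]; exact hw)
  have hy := hy rfl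
  have h2 := two_norm (K := K) hp h5 hK
  have h3 := three_norm (K := K) hp h5 hK
  have h20 : (2 : K) ≠ 0 := by norm_num
  have h30 : (3 : K) ≠ 0 := by norm_num
  have hpK : (p : K) ≠ 0 := Nat.cast_ne_zero.2 hp.ne_zero
  obtain ⟨y, hyd⟩ : ∃ y : K, y = w - 1 := ⟨_, rfl⟩
  have hwy : w = 1 + y := by rw [hyd]; ring
  rw [← hyd] at hy
  have hy0 : y ≠ 0 := norm_pos_iff.1 (by rw [hy]; exact ht0)
  have hy1 : ‖y‖ < 1 := by rw [hy]; exact ht1
  have hy3 : (p : ℝ)⁻¹ < ‖y‖ ^ 3 := by rw [hy]; exact ht3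
  have hwp : (1 + y) ^ p = 1 := by rw [← hwy]; exact hw.pow_eq_one
  have hA := base_exp hp h5 hK hy0 hy1 hy3 hwp
  have hB := sqrt_exp hp h5 hK hy1 hy3
  obtain ⟨Z, hZ⟩ : ∃ Z : K, Z = y ^ (p - 1) / (-(p : K)) := ⟨_, rfl⟩
  obtain ⟨v, hv⟩ : ∃ v : K, v = (1 + y) ^ ((p + 1) / 2) := ⟨_, rfl⟩
  rw [← hZ] at hA
  rw [← hv] at hB
  refine ⟨-v, ?_, ?_⟩
  · refine ⟨2 * p, by have := hp.pos; omega, ?_⟩
    have hvp : v ^ p = 1 := by
      rw [hv, ← pow_mul, mul_comm, pow_mul, hwp, one_pow]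
    rw [pow_mul, neg_sq, ← pow_mul, mul_comm 2 p, pow_mul, hvp, one_pow]
  · rw [← hyd]
    have e0 : y ^ (p - 1) / (p : K) * -v - 1 = Z * v - 1 := by
      rw [hZ]
      field_simp
    rw [e0]
    have hv1 : ‖v‖ ≤ 1 := by
      rw [hv, norm_pow]
      exact pow_le_one₀ (norm_nonneg _) (add_le (by rw [norm_one]) hy1.le)
    have hyy : ‖y ^ 2 / (2 * 2 * 2 * 3)‖ = th p ^ 2 := by
      rw [norm_div, norm_mul, norm_mul, norm_mul, h2, h3, norm_pow, hy]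
      norm_num
    have hA1 : ‖1 - y / 2 + y ^ 2 / 3‖ ≤ 1 := by
      have e : 1 - y / 2 + y ^ 2 / 3 = 1 + (-(y / 2) + y ^ 2 / 3) := by ring
      rw [e]
      refine add_le (by rw [norm_one]) (add_le ?_ ?_)
      · rw [norm_neg, norm_div, h2, div_one]; exact hy1.le
      · rw [norm_div, h3, div_one, norm_pow]; exact pow_le_one₀ (norm_nonneg _) hy1.le
    have hsmall : ‖Z * v - 1 - (-(y ^ 2 / (2 * 2 * 2 * 3)))‖ ≤ ‖y‖ ^ 3 := by
      have e : Z * v - 1 - (-(y ^ 2 / (2 * 2 * 2 * 3))) =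
          (Z - (1 - y / 2 + y ^ 2 / 3)) * v +
          ((1 - y / 2 + y ^ 2 / 3) * (v - (1 + y / 2 - y ^ 2 / 8)) +
          (y ^ 3 * (11 - 2 * y) / (2 * 2 * 2 * 2 * 3))) := by
        field_simp
        ring
      rw [e]
      refine add_le ?_ (add_le ?_ ?_)
      · rw [norm_mul]
        exact (mul_le_of_le_one_right (norm_nonneg _) hv1).trans hA
      · rw [norm_mul]
        exact (mul_le_of_le_one_left (norm_nonneg _) hA1).trans hB
      · rw [norm_div, norm_mul, norm_mul, norm_mul, norm_mul, norm_mul, h2, h3, norm_pow]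
        have h11 : ‖(11 : K) - 2 * y‖ ≤ 1 := by
          rw [sub_eq_add_neg]
          refine add_le ?_ ?_
          · have := nat_le (K := K) hp hK 11
            exact_mod_cast this
          · rw [norm_neg, norm_mul, h2, one_mul]; exact hy1.le
        have : ‖y‖ ^ 3 * ‖(11 : K) - 2 * y‖ ≤ ‖y‖ ^ 3 := mul_le_of_le_one_right (by positivity) h11
        calc _ = ‖y‖ ^ 3 * ‖(11 : K) - 2 * y‖ := by ring
          _ ≤ _ := this
    refine norm_of_near (b := -(y ^ 2 / (2 * 2 * 2 * 3))) (by rw [norm_neg, hyy])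
      (hsmall.trans_lt ?_)
    rw [hy]
    calc th p ^ 3 = th p ^ 2 * th p := by ring
      _ < th p ^ 2 * 1 := mul_lt_mul_of_pos_left ht1 (by positivity)
      _ = th p ^ 2 := mul_one _

/-- comparison of two levels -/
theorem step_exp {p : ℕ} (hp : p.Prime) (hK : Ext p K) {w : K} {t : ℝ} (hw1 : ‖w - 1‖ < 1)
    (ht : 0 < t) (hw' : t ≤ ‖w ^ p - 1‖) (ht3 : (p : ℝ)⁻¹ < t ^ 3) :
    ∃ d : K, ‖d‖ < t ^ 2 ∧ (w - 1) ^ p = (w ^ p - 1) * (1 + d) := by
  have hpn : ‖(p : K)‖ = (p : ℝ)⁻¹ := by rw [p_norm hp hK, one_div]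
  have hpi : 0 < (p : ℝ)⁻¹ := inv_pos.2 (by exact_mod_cast hp.pos)
  have hn0 : 0 < ‖w ^ p - 1‖ := ht.trans_le hw'
  have hn : w ^ p - 1 ≠ 0 := norm_pos_iff.1 hn0
  obtain ⟨y, hyd⟩ : ∃ y : K, y = w - 1 := ⟨_, rfl⟩
  have hwy : w = y + 1 := by rw [hyd]; ring
  obtain ⟨S, hS⟩ : ∃ S : K, S = ∑ i ∈ Finset.Ico 1 p, y ^ i * ((p.choose i : ℕ) : K) := ⟨_, rfl⟩
  have hS1 : ‖S‖ ≤ (p : ℝ)⁻¹ := by
    rw [hS]
    refine IsUltrametricDist.norm_sum_le_of_forall_le_of_nonneg hpi.le ?_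
    intro i hi
    rw [Finset.mem_Ico] at hi
    obtain ⟨m, hm⟩ := hp.dvd_choose_self (show i ≠ 0 by omega) hi.2
    rw [hm]
    push_cast
    rw [norm_mul, norm_mul, hpn, norm_pow]
    have e1 : ‖y‖ ^ i ≤ 1 := pow_le_one₀ (norm_nonneg _) (by rw [hyd]; exact hw1.le)
    have e2 : ‖(m : K)‖ ≤ 1 := nat_le hp hK m
    calc ‖y‖ ^ i * ((p : ℝ)⁻¹ * ‖(m : K)‖) ≤ 1 * ((p : ℝ)⁻¹ * 1) := by
          apply mul_le_mul e1 (mul_le_mul_of_nonneg_left e2 hpi.le) (by positivity) (by positivity)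
      _ = (p : ℝ)⁻¹ := by ring
  have hsum : w ^ p - 1 = S + y ^ p := by
    have h := add_pow y 1 p
    rw [Finset.sum_range_succ,
      ← Finset.sum_range_add_sum_Ico _ (show 1 ≤ p from hp.one_lt.le)] at h
    simp only [one_pow, mul_one, Nat.choose_self, Nat.cast_one] at h
    rw [← hS] at h
    rw [Finset.sum_range_succ, Finset.sum_range_zero] at h
    simp only [pow_zero, Nat.choose_zero_right, Nat.cast_one] at h
    rw [hwy, h]
    ring
  refine ⟨-S / (w ^ p - 1), ?_, ?_⟩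
  · rw [norm_div, norm_neg, div_lt_iff₀ hn0]
    calc ‖S‖ ≤ (p : ℝ)⁻¹ := hS1
      _ < t ^ 3 := ht3
      _ = t ^ 2 * t := by ring
      _ ≤ t ^ 2 * ‖w ^ p - 1‖ := mul_le_mul_of_nonneg_left hw' (by positivity)
  · rw [← hyd, mul_add, mul_one, mul_div_cancel₀ _ hn, hsum]
    ring

end

theorem zkl (wwn : WWNStmt) (thb : THBStmt) : ZKLStmt := by
  intro p hp h5 K _ _ _ hK k w hk
  obtain ⟨-, ht0, ht1, ht3, -⟩ := thb p hp h5
  obtain ⟨j, rfl⟩ : ∃ j, k = j + 1 := ⟨k - 1, by omega⟩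
  clear hk
  induction j generalizing w with
  | zero =>
    intro hw
    rw [zero_add, pow_one] at hw
    have h := base_case hp h5 hK thb wwn hw
    simpa using h
  | succ j ih =>
    intro hw
    have hw' : IsPrimitiveRoot (w ^ p) (p ^ (j + 1)) :=
      hw.pow (pow_pos hp.pos _) (by rw [pow_succ p (j + 1), mul_comm])
    obtain ⟨x, hx, h⟩ := ih (w ^ p) hw'
    obtain ⟨-, ha, -, -⟩ := wwn p hp (by omega) K hK (j + 1) (w ^ p) (by omega) hw'
    obtain ⟨-, -, hb, -⟩ := wwn p hp (by omega) K hK (j + 1 + 1) w (by omega) hw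
    obtain ⟨d, hd, hd2⟩ := step_exp hp hK hb ht0 ha ht3
    have hd1 : ‖d‖ < 1 := hd.trans (pow_lt_one₀ ht0.le ht1 (by norm_num))
    refine ⟨x, hx, ?_⟩
    simp only [Nat.add_sub_cancel] at h ⊢
    obtain ⟨N, hN⟩ : ∃ N : ℕ, N = p ^ j * (p - 1) := ⟨_, rfl⟩
    have hN' : p ^ (j + 1) * (p - 1) = p * N := by rw [hN, pow_succ]; ring
    rw [hN', pow_mul, hd2, mul_pow]
    rw [← hN] at h
    have hpow : ‖(1 + d) ^ N - 1‖ ≤ ‖d‖ := by
      have h0 := pow_sub_one_le (K := K) (w := 1 + d) (by rw [add_sub_cancel_left]; exact hd1.le) N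
      rwa [add_sub_cancel_left] at h0
    have hV : ‖(w ^ p - 1) ^ N / (p : K) * x‖ ≤ 1 := by
      have e : (w ^ p - 1) ^ N / (p : K) * x = ((w ^ p - 1) ^ N / (p : K) * x - 1) + 1 := by ring
      rw [e]
      refine add_le ?_ (by rw [norm_one])
      rw [h]
      exact pow_le_one₀ ht0.le ht1.le
    refine norm_of_near h ?_
    have e : (w ^ p - 1) ^ N * (1 + d) ^ N / (p : K) * x - 1 -
        ((w ^ p - 1) ^ N / (p : K) * x - 1) =
        ((w ^ p - 1) ^ N / (p : K) * x) * ((1 + d) ^ N - 1) := by ring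
    rw [e, norm_mul]
    exact ((mul_le_of_le_one_left (norm_nonneg _) hV).trans hpow).trans_lt hd

end Pool.Agent.ZP3.H48
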